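import Pool.Agent.Helper23.MV.StH

set_option autoImplicit false

namespace Pool.Agent.Helper90.MV

open Finset ArithmeticFunction
open Pool.Agent.Helper23.MV

private theorem r_one (c : PCh) (h : c.χ = 1) : c.r = 1 := by
  have h1 : c.χ.conductor = c.r := c.prim
  rw [h, DirichletCharacter.conductor_one] at h1
  exact h1.symm

private theorem ev_one (c : PCh) (h : c.χ = 1) (n : ℕ) : c.ev n = 1 := by
  obtain ⟨r, hr, χ, prim⟩ := c
  have h1 : r = 1 := r_one ⟨r, hr, χ, prim⟩ h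
  subst h1
  have h2 : χ = 1 := h
  change χ (n : ZMod 1) = 1
  rw [h2, Subsingleton.elim ((n : ZMod 1)) 1, map_one]

private theorem psi_ex (N : ℕ) (e : PCh) (h : N = e.r) :
    ∃ ψ : DirichletCharacter ℂ N, (∀ n : ℕ, ψ (n : ZMod N) = e.ev n) := by
  subst h
  exact ⟨e.χ, fun n => rfl⟩

private theorem psi_ex2 (c e : PCh) (h : c.χ = 1) :
    ∃ ψ : DirichletCharacter ℂ (c.r * e.r), (∀ n : ℕ, ψ (n : ZMod (c.r * e.r)) = e.ev n) :=
  psi_ex _ e (by rw [r_one c h, one_mul])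

private theorem norm_cpow_le (X σ₀ : ℝ) (a : ℕ) (s : ℂ) (ha : 0 < a) (haX : (a : ℝ) ≤ X)
    (h0 : 0 ≤ σ₀) (h : 1 - σ₀ ≤ s.re) :
    ‖(a : ℂ) ^ (-s)‖ ≤ X ^ σ₀ * (a : ℝ)⁻¹ := by
  rw [Complex.norm_natCast_cpow_of_pos ha, Complex.neg_re]
  have ha' : (0 : ℝ) < a := by exact_mod_cast ha
  have ha1 : (1 : ℝ) ≤ a := by exact_mod_cast ha
  calc (a : ℝ) ^ (-s.re) ≤ (a : ℝ) ^ (σ₀ - 1) := Real.rpow_le_rpow_of_exponent_le ha1 (by linarith)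
    _ = (a : ℝ) ^ σ₀ * (a : ℝ)⁻¹ := by rw [Real.rpow_sub_one ha'.ne', div_eq_mul_inv]
    _ ≤ X ^ σ₀ * (a : ℝ)⁻¹ := by
        gcongr

private theorem sum_inv_le (X y : ℝ) (hy : 1 ≤ y) (hyX : y ≤ X) :
    ∑ a ∈ Ioc 0 ⌊√y⌋₊, (a : ℝ)⁻¹ ≤ 1 + Real.log X := by
  have h1 : 1 ≤ √y := Real.one_le_sqrt.mpr hy
  have h2 := harmonic_floor_le_one_add_log (√y) h1
  have h3 : ((harmonic ⌊√y⌋₊ : ℚ) : ℝ) = ∑ a ∈ Ioc 0 ⌊√y⌋₊, (a : ℝ)⁻¹ := by
    rw [harmonic_eq_sum_Icc]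
    push_cast
    rfl
  rw [h3] at h2
  have h4 : √y ≤ X := by
    have : √y ≤ y := by
      rw [Real.sqrt_le_left (by linarith)]
      nlinarith
    linarith
  have h5 : Real.log (√y) ≤ Real.log X := Real.log_le_log (by linarith) h4
  linarith

/-- the sum of norms of `a^{-s}` over `a ≤ √y` -/
private theorem sum_norm_le (X y σ₀ : ℝ) (s : ℂ) (hy : 1 ≤ y) (hX : 1 ≤ X) (hyX : y ≤ X)
    (h0 : 0 ≤ σ₀) (h : 1 - σ₀ ≤ s.re) :
    ∑ a ∈ Ioc 0 ⌊√y⌋₊, ‖(a : ℂ) ^ (-s)‖ ≤ X ^ σ₀ * (1 + Real.log X) := by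
  have h4 : √y ≤ X := by
    have : √y ≤ y := by
      rw [Real.sqrt_le_left (by linarith)]
      nlinarith
    linarith
  calc ∑ a ∈ Ioc 0 ⌊√y⌋₊, ‖(a : ℂ) ^ (-s)‖ ≤ ∑ a ∈ Ioc 0 ⌊√y⌋₊, X ^ σ₀ * (a : ℝ)⁻¹ := by
        refine Finset.sum_le_sum fun a ha => ?_
        rw [Finset.mem_Ioc] at ha
        refine norm_cpow_le X σ₀ a s ha.1 ?_ h0 h
        exact ((Nat.le_floor_iff (Real.sqrt_nonneg y)).1 ha.2).trans h4
    _ = X ^ σ₀ * ∑ a ∈ Ioc 0 ⌊√y⌋₊, (a : ℝ)⁻¹ := by rw [Finset.mul_sum]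
    _ ≤ X ^ σ₀ * (1 + Real.log X) := by
        gcongr
        exact sum_inv_le X y hy hyX

/-- for `a ≤ √y` the quotient `y/a` is at least `√y` -/
private theorem sqrt_le_div (y : ℝ) (a : ℕ) (hy : 1 ≤ y) (ha : 0 < a) (h : a ≤ ⌊√y⌋₊) : √y ≤ y / a := by
  have ha' : (0 : ℝ) < a := by exact_mod_cast ha
  have h1 : (a : ℝ) ≤ √y := (Nat.le_floor_iff (Real.sqrt_nonneg y)).1 h
  rw [le_div_iff₀ ha']
  calc √y * a ≤ √y * √y := by gcongr
    _ = y := Real.mul_self_sqrt (by linarith)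

/-- eventually `8 (1 + log X) ≤ X^a` -/
private theorem ev_log (a : ℝ) (ha : 0 < a) : ∃ X0 : ℝ, 2 ≤ X0 ∧ ∀ X : ℝ, X0 ≤ X →
    8 * (1 + Real.log X) ≤ X ^ a := by
  have h1 : (fun X : ℝ => Real.log X) =o[Filter.atTop] fun X => X ^ a := isLittleO_log_rpow_atTop ha
  have h2 : (fun _ : ℝ => (1 : ℝ)) =o[Filter.atTop] fun X => X ^ a := by
    rw [Asymptotics.isLittleO_const_left]
    right
    exact (tendsto_rpow_atTop ha).congr' (by
      filter_upwards [Filter.eventually_ge_atTop (0 : ℝ)] with X hX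
      simp only [Function.comp, Real.norm_eq_abs, abs_of_nonneg (Real.rpow_nonneg hX a)])
  have h3 := (h2.add h1).bound (show (0 : ℝ) < 1 / 8 by norm_num)
  obtain ⟨X1, hX1⟩ := Filter.eventually_atTop.1 h3
  refine ⟨max 2 X1, le_max_left _ _, fun X hX => ?_⟩
  have hX2 : 2 ≤ X := (le_max_left _ _).trans hX
  have h4 := hX1 X ((le_max_right _ _).trans hX)
  have h5 : 0 ≤ Real.log X := Real.log_nonneg (by linarith)
  rw [Real.norm_eq_abs, Real.norm_eq_abs, abs_of_nonneg (by linarith),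
    abs_of_nonneg (Real.rpow_nonneg (by linarith) a)] at h4
  linarith

/-- **TF2.** -/
theorem hTf2 : StTr1 → StTr2 → StHyp → StTf2 := by
  intro hTr1 hTr2 hHyp κ hκ hκ1
  obtain ⟨c1, X1, hc1, hc1κ, hX1, H1⟩ := hTr1 (κ / 2) (by linarith) (by linarith)
  obtain ⟨c2, X2, hc2, hc2κ, hX2, H2⟩ := hTr2 (κ / 2) (by linarith) (by linarith)
  set c₀ : ℝ := min c1 c2 / 4 with hc₀
  have hc₀1 : 4 * c₀ ≤ c1 := by rw [hc₀]; linarith [min_le_left c1 c2]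
  have hc₀2 : 4 * c₀ ≤ c2 := by rw [hc₀]; linarith [min_le_right c1 c2]
  have hc₀p : 0 < c₀ := by rw [hc₀]; have := lt_min hc1 hc2; linarith
  obtain ⟨X3, hX3, H3⟩ := ev_log (2 * c₀) (by linarith)
  refine ⟨c₀, max (max X1 X2) X3, hc₀p, by linarith, by
    exact hX1.trans ((le_max_left _ _).trans (le_max_left _ _)), ?_⟩
  intro X y c e δ ρ hX hcχ her heRe hδ hδc hLρ hρre hρim2 hρimX hyX hyX'
  have hXX1 : X1 ≤ X := ((le_max_left _ _).trans (le_max_left _ _)).trans hX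
  have hXX2 : X2 ≤ X := ((le_max_right _ _).trans (le_max_left _ _)).trans hX
  have hXX3 : X3 ≤ X := (le_max_right _ _).trans hX
  have hX2' : 2 ≤ X := hX1.trans hXX1
  have hX1' : 1 ≤ X := by linarith
  have hX0' : 0 < X := by linarith
  have hy1 : 1 ≤ y := (Real.one_le_rpow hX1' hκ.le).trans hyX
  have hy0 : 0 < y := by linarith
  have hsq : X ^ (κ / 2) ≤ √y := by
    rw [Real.sqrt_eq_rpow]
    calc X ^ (κ / 2) = (X ^ κ) ^ (1 / 2 : ℝ) := by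
          rw [← Real.rpow_mul hX0'.le]; congr 1; ring
      _ ≤ y ^ (1 / 2 : ℝ) := by gcongr
  have hρ1 : ρ ≠ 1 := by
    rintro rfl
    simp at hρim2
    linarith
  have hρre1 : ρ.re < 1 := by
    by_contra h
    push Not at h
    exact DirichletCharacter.LFunction_ne_zero_of_one_le_re c.χ (Or.inr hρ1) h hLρ
  have hcr : c.r = 1 := r_one c hcχ
  have hc₀4 : c₀ ≤ 1 / 4 := by linarith
  have hXsq : X ≤ X ^ 2 := by nlinarith
  obtain ⟨ψ, hψ⟩ := psi_ex2 c e hcχ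
  -- the truncated series
  have hDSψ : ∀ v s, DS ψ v s = DS e.χ v s := by
    intro v s
    unfold DS
    refine Finset.sum_congr rfl fun m _ => ?_
    rw [hψ m]
    rfl
  have hE1 : ∀ v, X ^ (κ / 2) ≤ v → ‖DS c.χ v ρ - (v : ℂ) ^ (1 - ρ) / (1 - ρ)‖ ≤ X ^ (-c2) := by
    intro v hv
    have := H2 X v c.r ρ hXX2 (by
      rw [hcr]
      simpa using Real.one_le_rpow hX1' hc2.le) hv hρ1 (by linarith) (by linarith) (by linarith)
    rw [← hcχ] at this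
    have h0 : DirichletCharacter.LFunction c.χ ρ = 0 := hLρ
    rw [h0, sub_zero] at this
    have h1 : ((c.r.totient : ℂ) / c.r) = 1 := by rw [hcr]; simp
    rwa [h1, one_mul] at this
  have her1 : (e.r : ℝ) ≤ X ^ c1 := her.trans (Real.rpow_le_rpow_of_exponent_le hX1' (by linarith))
  have hE2 : ∀ v, X ^ (κ / 2) ≤ v →
      ‖DS e.χ v (ρ + δ) - e.L (ρ + δ)‖ ≤ X ^ (-c1) := by
    intro v hv
    refine H1 X v e.r e.χ (ρ + δ) hXX1 her1 hv heRe.2 ?_ ?_ ?_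
    · simp; linarith
    · simp; linarith
    · simp; linarith
  have hE3 : ‖DS e.χ (√y) (1 + δ) - e.L (1 + δ)‖ ≤ X ^ (-c1) := by
    refine H1 X (√y) e.r e.χ (1 + δ) hXX1 her1 hsq heRe.2 ?_ ?_ ?_
    · simp; linarith
    · simp; linarith
    · simp; positivity
  -- the hyperbola identity
  have hH := hHyp c e δ ψ y ρ heRe.1 (fun n => by rw [hψ n, ev_one c hcχ n, one_mul]) hy1
  -- notation
  set Le : ℂ := e.L (ρ + δ) with hLe
  set D1 : ℂ := DS c.χ (√y) ρ with hD1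
  set P : ℂ := (y : ℂ) ^ (1 - ρ) / (1 - ρ) with hP
  -- norm of pole terms
  have h1ρ : 2 ≤ ‖1 - ρ‖ := by
    have := Complex.abs_im_le_norm (1 - ρ)
    simp at this
    linarith
  have hpole : ∀ v : ℝ, 1 ≤ v → v ≤ X → ‖(v : ℂ) ^ (1 - ρ) / (1 - ρ)‖ ≤ X ^ c₀ := by
    intro v hv hvX
    rw [norm_div, Complex.norm_cpow_eq_rpow_re_of_pos (by linarith)]
    rw [div_le_iff₀ (by linarith)]
    have h5 : v ^ (1 - ρ).re ≤ X ^ c₀ := by
      calc v ^ (1 - ρ).re ≤ X ^ (1 - ρ).re := by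
            refine Real.rpow_le_rpow (by linarith) hvX ?_
            simp; linarith
        _ ≤ X ^ c₀ := Real.rpow_le_rpow_of_exponent_le hX1' (by simp; linarith)
    have h6 : 0 < X ^ c₀ := Real.rpow_pos_of_pos hX0' _
    nlinarith
  have hlog0 : 0 ≤ Real.log X := Real.log_nonneg hX1'
  -- first sum
  have hS1 : ‖∑ a ∈ Ioc 0 ⌊√y⌋₊, c.ev a * (a : ℂ) ^ (-ρ) * DS ψ (y / a) (ρ + δ) - Le * D1‖ ≤
      X ^ c₀ * (1 + Real.log X) * X ^ (-c1) := by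
    have h7 : Le * D1 = ∑ a ∈ Ioc 0 ⌊√y⌋₊, (a : ℂ) ^ (-ρ) * Le := by
      rw [hD1, DS, mul_comm, Finset.sum_mul]
      refine Finset.sum_congr rfl fun a _ => ?_
      have : c.χ (a : ZMod c.r) = 1 := ev_one c hcχ a
      rw [this, one_mul]
    rw [h7, ← Finset.sum_sub_distrib]
    calc _ ≤ ∑ a ∈ Ioc 0 ⌊√y⌋₊, ‖(a : ℂ) ^ (-ρ)‖ * X ^ (-c1) := by
          refine norm_sum_le_of_le _ fun a ha => ?_
          rw [Finset.mem_Ioc] at ha
          rw [ev_one c hcχ a, one_mul, hDSψ, ← mul_sub, norm_mul]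
          gcongr
          exact hE2 _ (hsq.trans (sqrt_le_div y a hy1 ha.1 ha.2))
      _ = (∑ a ∈ Ioc 0 ⌊√y⌋₊, ‖(a : ℂ) ^ (-ρ)‖) * X ^ (-c1) := by rw [Finset.sum_mul]
      _ ≤ X ^ c₀ * (1 + Real.log X) * X ^ (-c1) := by
          gcongr
          exact sum_norm_le X y c₀ ρ hy1 hX1' hyX' hc₀p.le (by linarith)
  -- second sum
  have hS2 : ‖∑ b ∈ Ioc 0 ⌊√y⌋₊, ψ (b : ZMod (c.r * e.r)) * (b : ℂ) ^ (-ρ - δ) * DS c.χ (y / b) ρ -
      P * DS e.χ (√y) (1 + δ)‖ ≤ X ^ c₀ * (1 + Real.log X) * X ^ (-c2) := by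
    have h7 : P * DS e.χ (√y) (1 + δ) = ∑ b ∈ Ioc 0 ⌊√y⌋₊,
        e.ev b * (b : ℂ) ^ (-ρ - δ) * (((y / b : ℝ) : ℂ) ^ (1 - ρ) / (1 - ρ)) := by
      rw [DS, Finset.mul_sum]
      refine Finset.sum_congr rfl fun b hb => ?_
      rw [Finset.mem_Ioc] at hb
      have hb0 : (0 : ℝ) < b := by exact_mod_cast hb.1
      have hb0' : (b : ℂ) ≠ 0 := by exact_mod_cast hb0.ne'
      have h8 : (((y / b : ℝ) : ℂ)) ^ (1 - ρ) = (y : ℂ) ^ (1 - ρ) * (b : ℂ) ^ (-(1 - ρ)) := by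
        rw [div_eq_mul_inv, Complex.ofReal_mul, Complex.mul_cpow_ofReal_nonneg hy0.le (by positivity)]
        congr 1
        rw [Complex.ofReal_inv, Complex.ofReal_natCast, Complex.inv_cpow, Complex.cpow_neg]
        rw [Complex.natCast_arg]
        exact Real.pi_ne_zero.symm
      rw [h8, hP]
      have h9 : (b : ℂ) ^ (-(1 + (δ : ℂ))) = (b : ℂ) ^ (-ρ - δ) * (b : ℂ) ^ (-(1 - ρ)) := by
        rw [← Complex.cpow_add _ _ hb0']
        congr 1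
        ring
      rw [h9]
      have : e.χ (b : ZMod e.r) = e.ev b := rfl
      rw [this]
      ring
    rw [h7, ← Finset.sum_sub_distrib]
    have hev : ∀ n : ℕ, ‖e.ev n‖ ≤ 1 := fun n => e.χ.norm_le_one _
    calc _ ≤ ∑ b ∈ Ioc 0 ⌊√y⌋₊, ‖(b : ℂ) ^ (-(ρ + δ))‖ * X ^ (-c2) := by
          refine norm_sum_le_of_le _ fun b hb => ?_
          rw [Finset.mem_Ioc] at hb
          rw [hψ, ← mul_sub, norm_mul, norm_mul, neg_add']
          have h10 := hE1 (y / b) (hsq.trans (sqrt_le_div y b hy1 hb.1 hb.2))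
          calc ‖e.ev b‖ * ‖(b : ℂ) ^ (-ρ - δ)‖ * _ ≤ 1 * ‖(b : ℂ) ^ (-ρ - δ)‖ * X ^ (-c2) := by
                gcongr
                exact hev b
            _ = _ := by rw [one_mul]
      _ = (∑ b ∈ Ioc 0 ⌊√y⌋₊, ‖(b : ℂ) ^ (-(ρ + δ))‖) * X ^ (-c2) := by rw [Finset.sum_mul]
      _ ≤ X ^ c₀ * (1 + Real.log X) * X ^ (-c2) := by
          gcongr
          exact sum_norm_le X y c₀ (ρ + δ) hy1 hX1' hyX' hc₀p.le (by simp; linarith)
  -- third term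
  have hsqX : √y ≤ X := by
    have : √y ≤ y := by
      rw [Real.sqrt_le_left (by linarith)]
      nlinarith
    linarith
  have hX0c : 0 < X ^ c₀ := Real.rpow_pos_of_pos hX0' _
  have hX1c : 1 ≤ X ^ c₀ := Real.one_le_rpow hX1' hc₀p.le
  have hD1n : ‖D1‖ ≤ 2 * X ^ c₀ := by
    have h11 := hE1 (√y) hsq
    have h12 := hpole (√y) (Real.one_le_sqrt.mpr hy1) hsqX
    have h13 : X ^ (-c2) ≤ 1 := Real.rpow_le_one_of_one_le_of_nonpos hX1' (by linarith)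
    calc ‖D1‖ = ‖(D1 - ((√y : ℝ) : ℂ) ^ (1 - ρ) / (1 - ρ)) + ((√y : ℝ) : ℂ) ^ (1 - ρ) / (1 - ρ)‖ := by
          congr 1; ring
      _ ≤ X ^ (-c2) + X ^ c₀ := (norm_add_le _ _).trans (add_le_add h11 h12)
      _ ≤ 2 * X ^ c₀ := by linarith
  have hS3 : ‖D1 * DS ψ (√y) (ρ + δ) - D1 * Le‖ ≤ 2 * X ^ c₀ * X ^ (-c1) := by
    rw [← mul_sub, norm_mul, hDSψ]
    gcongr
    exact hE2 _ hsq
  have hS4 : ‖P * DS e.χ (√y) (1 + δ) - P * e.L (1 + δ)‖ ≤ X ^ c₀ * X ^ (-c1) := by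
    rw [← mul_sub, norm_mul]
    gcongr
    exact hpole y hy1 hyX'
  -- conclusion
  have hc1' : X ^ (-c1) ≤ X ^ (-(4 * c₀)) := Real.rpow_le_rpow_of_exponent_le hX1' (by linarith)
  have hc2' : X ^ (-c2) ≤ X ^ (-(4 * c₀)) := Real.rpow_le_rpow_of_exponent_le hX1' (by linarith)
  have hfin := H3 X hXX3
  have h20 : X ^ (-(4 * c₀)) * X ^ c₀ * X ^ (2 * c₀) = X ^ (-c₀) := by
    rw [← Real.rpow_add hX0', ← Real.rpow_add hX0']
    congr 1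
    ring
  have h21 : 0 < X ^ (-(4 * c₀)) := Real.rpow_pos_of_pos hX0' _
  rw [hH]
  set S1 := ∑ a ∈ Ioc 0 ⌊√y⌋₊, c.ev a * (a : ℂ) ^ (-ρ) * DS ψ (y / a) (ρ + δ) with hS1d
  set S2 := ∑ b ∈ Ioc 0 ⌊√y⌋₊, ψ (b : ZMod (c.r * e.r)) * (b : ℂ) ^ (-ρ - δ) * DS c.χ (y / b) ρ
    with hS2d
  have h22 : S1 + S2 - D1 * DS ψ (√y) (ρ + δ) - P * e.L (1 + δ) =
      (S1 - Le * D1) + (S2 - P * DS e.χ (√y) (1 + δ)) - (D1 * DS ψ (√y) (ρ + δ) - D1 * Le) +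
        (P * DS e.χ (√y) (1 + δ) - P * e.L (1 + δ)) := by ring
  rw [h22]
  calc _ ≤ X ^ c₀ * (1 + Real.log X) * X ^ (-c1) + X ^ c₀ * (1 + Real.log X) * X ^ (-c2) +
        2 * X ^ c₀ * X ^ (-c1) + X ^ c₀ * X ^ (-c1) := by
        refine (norm_add_le _ _).trans (add_le_add ((norm_sub_le _ _).trans (add_le_add
          ((norm_add_le _ _).trans (add_le_add hS1 hS2)) hS3)) hS4)
    _ ≤ X ^ c₀ * (1 + Real.log X) * X ^ (-(4 * c₀)) + X ^ c₀ * (1 + Real.log X) * X ^ (-(4 * c₀)) +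
        2 * X ^ c₀ * X ^ (-(4 * c₀)) + X ^ c₀ * X ^ (-(4 * c₀)) := by
        gcongr
    _ = X ^ (-(4 * c₀)) * X ^ c₀ * (5 + 2 * Real.log X) := by ring
    _ ≤ X ^ (-(4 * c₀)) * X ^ c₀ * X ^ (2 * c₀) := by
        gcongr
        linarith
    _ = X ^ (-c₀) := h20

end Pool.Agent.Helper90.MV
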